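import Pool.Agent.H180.PG.Stm

/-!
# Job PG-NodeSmall: the number of the nodes which are not top nodes
-/

set_option autoImplicit false

open Set Cardinal

namespace Pool.Agent.Q184.PG

open Pool.Agent.H180.PG

theorem nodeSmall : S_NodeSmall := by
  intro K hK hpow
  classical
  have hcount : ∀ x : W, ∃ i : W → ℕ, ∀ a b, a < x → b < x → i a = i b → a = b := by
    intro x
    have h1 : #(Iio x) < aleph 1 := mk_Iio_ord_toType x
    have h2 : #(Iio x) ≤ ℵ₀ := by
      rw [← Order.lt_succ_iff, succ_aleph0]
      exact h1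
    have : Countable (Iio x) := mk_le_aleph0_iff.1 h2
    obtain ⟨j, hj⟩ := exists_injective_nat (Iio x)
    refine ⟨fun a => if h : a < x then j ⟨a, h⟩ else 0, fun a b ha hb h => ?_⟩
    simp only [dif_pos ha, dif_pos hb] at h
    exact congrArg Subtype.val (hj h)
  choose i hi using hcount
  have hleast : ∀ p : {p : Node K // ¬ Top p}, ∃ x : W, p.1.1 x = none ∧ ∀ a, a < x → p.1.1 a ≠ none := by
    intro p
    have h : {a | p.1.1 a = none}.Nonempty := by
      by_contra h
      exact p.2 fun a ha => h ⟨a, ha⟩
    refine ⟨(wellFounded_lt (α := W)).min _ h, (wellFounded_lt (α := W)).min_mem _ h, fun a ha hn => ?_⟩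
    exact (wellFounded_lt (α := W)).not_lt_min _ hn ha
  choose x hx1 hx2 using hleast
  let g : {p : Node K // ¬ Top p} → W × (ℕ → Option K) := fun p =>
    (x p, fun n => if h : ∃ a, a < x p ∧ i (x p) a = n then p.1.1 h.choose else none)
  have hg : Function.Injective g := by
    intro p q hpq
    have h1 : x p = x q := congrArg Prod.fst hpq
    have h2 := congrArg Prod.snd hpq
    apply Subtype.ext
    apply Subtype.ext
    funext a
    by_cases ha : a < x p
    · have h3 := congrFun h2 (i (x p) a)
      simp only [g] at h3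
      have e1 : ∃ b, b < x p ∧ i (x p) b = i (x p) a := ⟨a, ha, rfl⟩
      have e2 : ∃ b, b < x q ∧ i (x q) b = i (x p) a := ⟨a, h1 ▸ ha, by rw [h1]⟩
      rw [dif_pos e1, dif_pos e2] at h3
      have c1 : e1.choose = a := hi (x p) _ _ e1.choose_spec.1 ha e1.choose_spec.2
      have c2 : e2.choose = a := hi (x q) _ _ e2.choose_spec.1 (h1 ▸ ha) (by rw [e2.choose_spec.2, h1])
      rw [c1, c2] at h3
      exact h3
    · have up : ∀ (r : {p : Node K // ¬ Top p}), ¬ a < x r → r.1.1 a = none := by
        intro r hr
        rcases eq_or_lt_of_le (not_lt.1 hr) with h | h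
        · rw [← h]
          exact hx1 r
        · by_contra hc
          exact r.1.2 a (x r) h hc (hx1 r)
      rw [up p ha, up q (h1 ▸ ha)]
  have hW : #W = aleph 1 := mk_ord_toType _
  have hopt : #(Option K) = #K := by
    rw [mk_option]
    exact add_one_eq hK
  have haleph : aleph 1 ≤ #K := by
    rw [← succ_aleph0]
    refine (Order.succ_le_of_lt (cantor ℵ₀)).trans (le_trans ?_ hpow)
    exact power_le_power_right ((nat_lt_aleph0 2).le.trans hK)
  calc #{p : Node K // ¬ Top p} ≤ #(W × (ℕ → Option K)) := mk_le_of_injective hg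
    _ = aleph 1 * #K ^ ℵ₀ := by
      rw [mk_prod, lift_id, lift_id, hW, ← power_def, hopt, mk_nat]
    _ ≤ #K * #K := mul_le_mul' haleph hpow
    _ = #K := mul_eq_self hK

end Pool.Agent.Q184.PG
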